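import Mathlib
import Pool.Agent.Helper576.Bridge

set_option autoImplicit false

open Filter Topology MeasureTheory
open scoped ENNReal

namespace Pool.Agent.W757.PCconv

open Pool.Agent.Helper576.LpMult Pool.Agent.Helper576.LpDefs

/-- step functions in the sense of the frozen statement -/
def Step (g : ℝ → ℂ) : Prop := ∃ (m : ℕ) (t : Fin (m + 1) → ℝ) (c : Fin m → ℂ),
      StrictMono t ∧ t 0 = 0 ∧ t (Fin.last m) = 1 ∧
      ∀ i : Fin m, ∀ x ∈ Set.Ioo (t i.castSucc) (t i.succ), g x = c i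

/-- constant off a finite set -/
def St (g : ℝ → ℂ) : Prop := ∃ A : Finset ℝ, ∀ x y : ℝ, 0 < x → x < y → y < 1 →
  (∀ a ∈ A, ¬ (x ≤ a ∧ a ≤ y)) → g x = g y

theorem St.add {g h : ℝ → ℂ} (hg : St g) (hh : St h) : St (fun x => g x + h x) := by
  classical
  obtain ⟨A, hA⟩ := hg
  obtain ⟨B, hB⟩ := hh
  refine ⟨A ∪ B, fun x y hx hxy hy hn => ?_⟩
  simp only
  rw [hA x y hx hxy hy fun a ha => hn a (Finset.mem_union_left _ ha),
    hB x y hx hxy hy fun a ha => hn a (Finset.mem_union_right _ ha)]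

theorem St.const_mul {g : ℝ → ℂ} (hg : St g) (c : ℂ) : St (fun x => c * g x) := by
  obtain ⟨A, hA⟩ := hg
  exact ⟨A, fun x y hx hxy hy hn => by simp only; rw [hA x y hx hxy hy hn]⟩

theorem St.ind {I : Set ℝ} (hI : I.OrdConnected) : St (I.indicator fun _ => (1 : ℂ)) := by
  classical
  refine ⟨{sInf (I ∩ Set.Ioo 0 1), sSup (I ∩ Set.Ioo 0 1)}, fun x y hx hxy hy hn => ?_⟩
  have hbb : BddBelow (I ∩ Set.Ioo (0 : ℝ) 1) := ⟨0, fun z hz => hz.2.1.le⟩
  have hba : BddAbove (I ∩ Set.Ioo (0 : ℝ) 1) := ⟨1, fun z hz => hz.2.2.le⟩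
  by_cases h1 : x ∈ I <;> by_cases h2 : y ∈ I
  · rw [Set.indicator_of_mem h1, Set.indicator_of_mem h2]
  · exfalso
    apply hn (sSup (I ∩ Set.Ioo 0 1)) (by simp)
    refine ⟨le_csSup hba ⟨h1, hx, by linarith⟩, csSup_le ⟨x, h1, hx, by linarith⟩ ?_⟩
    intro w hw
    by_contra hwy
    push Not at hwy
    exact h2 (hI.out h1 hw.1 ⟨hxy.le, hwy.le⟩)
  · exfalso
    apply hn (sInf (I ∩ Set.Ioo 0 1)) (by simp)
    refine ⟨le_csInf ⟨y, h2, by linarith, hy⟩ ?_, csInf_le hbb ⟨h2, by linarith, hy⟩⟩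
    intro w hw
    by_contra hwx
    push Not at hwx
    exact h1 (hI.out hw.1 h2 ⟨hwx.le, hxy.le⟩)
  · rw [Set.indicator_of_notMem h1, Set.indicator_of_notMem h2]

theorem St.step {g : ℝ → ℂ} (hg : St g) : Step g := by
  classical
  obtain ⟨A, hA⟩ := hg
  set B : Finset ℝ := insert 0 (insert 1 (A.filter fun a => 0 < a ∧ a < 1)) with hB
  have hBr : ∀ a ∈ B, 0 ≤ a ∧ a ≤ 1 := by
    intro a ha
    rw [hB] at ha
    simp only [Finset.mem_insert, Finset.mem_filter] at ha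
    rcases ha with h | h | h
    · rw [h]; norm_num
    · rw [h]; norm_num
    · exact ⟨h.2.1.le, h.2.2.le⟩
  have h0 : (0 : ℝ) ∈ B := by rw [hB]; simp
  have h1 : (1 : ℝ) ∈ B := by rw [hB]; simp
  have hcard : 2 ≤ B.card := by
    have : ({0, 1} : Finset ℝ) ⊆ B := by
      intro a ha
      simp only [Finset.mem_insert, Finset.mem_singleton] at ha
      rcases ha with h | h
      · rw [h]; exact h0
      · rw [h]; exact h1
    have h := Finset.card_le_card this
    rwa [Finset.card_pair (by norm_num)] at h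
  obtain ⟨m, hm⟩ : ∃ m, B.card = m + 1 := ⟨B.card - 1, by omega⟩
  set t := B.orderEmbOfFin hm with ht
  have htm : ∀ i, t i ∈ B := fun i => Finset.orderEmbOfFin_mem B hm i
  have htr : ∀ a ∈ B, ∃ i, t i = a := by
    intro a ha
    have : a ∈ Set.range t := by rw [ht, Finset.range_orderEmbOfFin]; exact ha
    exact this
  refine ⟨m, t, fun i => g ((t i.castSucc + t i.succ) / 2), t.strictMono, ?_, ?_, ?_⟩
  · obtain ⟨i, hi⟩ := htr 0 h0
    have h2 : t 0 ≤ t i := t.monotone (Fin.zero_le i)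
    have h3 := (hBr _ (htm 0)).1
    linarith
  · obtain ⟨i, hi⟩ := htr 1 h1
    have h2 : t i ≤ t (Fin.last m) := t.monotone (Fin.le_last i)
    have h3 := (hBr _ (htm (Fin.last m))).2
    linarith
  · intro i x hx
    have hlt : t i.castSucc < t i.succ := t.strictMono (Fin.castSucc_lt_succ)
    have key : ∀ u v : ℝ, t i.castSucc < u → u < v → v < t i.succ → g u = g v := by
      intro u v hu huv hv
      have hu0 : 0 < u := lt_of_le_of_lt (hBr _ (htm _)).1 hu
      have hv1 : v < 1 := lt_of_lt_of_le hv (hBr _ (htm _)).2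
      apply hA u v hu0 huv hv1
      rintro a ha ⟨h2, h3⟩
      have haB : a ∈ B := by
        rw [hB]
        simp only [Finset.mem_insert, Finset.mem_filter]
        exact Or.inr (Or.inr ⟨ha, by linarith, by linarith⟩)
      obtain ⟨j, hj⟩ := htr a haB
      have h4 : i.castSucc < j := by
        rw [← t.lt_iff_lt, hj]; linarith
      have h5 : j < i.succ := by
        rw [← t.lt_iff_lt, hj]; linarith
      have h6 : i.val < j.val := by simpa [Fin.lt_def] using h4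
      have h7 : j.val < i.val + 1 := by simpa [Fin.lt_def] using h5
      omega
    have hmid1 : t i.castSucc < (t i.castSucc + t i.succ) / 2 := by linarith
    have hmid2 : (t i.castSucc + t i.succ) / 2 < t i.succ := by linarith
    rcases lt_trichotomy x ((t i.castSucc + t i.succ) / 2) with h | h | h
    · exact key _ _ hx.1 h hmid2
    · rw [h]
    · exact (key _ _ hmid1 h hx.2).symm

/-- from the circle to the line -/
theorem step_of_PCzero {s : UnitAddCircle → ℂ} (hs : s ∈ PCzero) : Step (fun x : ℝ => s (cov x)) := by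
  classical
  obtain ⟨h1, h2⟩ := hs
  set G : ℝ → ℂ := ∑ z ∈ h1.toFinset, z • ((cov ⁻¹' (s ⁻¹' {z})) ∩ Set.Icc 0 1).indicator (fun _ => (1 : ℂ))
    with hG
  have hGV : G ∈ VV := VV.sum_mem fun z _ => VV.smul_mem z (VV_arcUnion (h2 z))
  have hStG : St G := by
    refine Submodule.span_induction (p := fun G _ => St G) ?_ ?_ ?_ ?_ hGV
    · rintro _ ⟨I, hI, rfl⟩; exact St.ind hI
    · exact ⟨∅, fun _ _ _ _ _ _ => rfl⟩
    · intro x y _ _ hx hy; exact hx.add hy
    · intro c x _ hx; exact hx.const_mul c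
  have hGe : ∀ x ∈ Set.Icc (0 : ℝ) 1, G x = s (cov x) := by
    intro x hx01
    rw [hG, Finset.sum_apply]
    rw [Finset.sum_eq_single (s (cov x))]
    · rw [Pi.smul_apply, Set.indicator_of_mem, smul_eq_mul, mul_one]
      exact ⟨rfl, hx01⟩
    · intro z _ hz
      rw [Pi.smul_apply, Set.indicator_of_notMem, smul_zero]
      intro h; exact hz h.1.symm
    · intro h
      exfalso; apply h
      rw [Set.Finite.mem_toFinset]; exact ⟨cov x, rfl⟩
  apply St.step
  obtain ⟨A, hA⟩ := hStG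
  refine ⟨A, fun x y hx hxy hy hn => ?_⟩
  simp only
  rw [← hGe x ⟨hx.le, by linarith⟩, ← hGe y ⟨by linarith, hy.le⟩]
  exact hA x y hx hxy hy hn

theorem crd_mem (y : UnitAddCircle) : crd y ∈ Set.Ioc (0 : ℝ) 1 := by
  have h := (AddCircle.measurableEquivIoc (1 : ℝ) 0 y).2
  unfold crd
  simpa using h

theorem crd_cov {x : ℝ} (hx : x ∈ Set.Ioc (0 : ℝ) 1) : crd (cov x) = x := by
  have h1 := crd_mem (cov x)
  have h2 : cov (crd (cov x)) = cov x := cov_crd _
  obtain ⟨k, hk⟩ := cov_eq_iff.mp h2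
  have h3 : (-1 : ℝ) < k := by linarith [h1.1, hx.2]
  have h4 : (k : ℝ) < 1 := by linarith [h1.2, hx.1]
  have h5 : (-1 : ℤ) < k := by exact_mod_cast h3
  have h6 : k < (1 : ℤ) := by exact_mod_cast h4
  have h7 : k = 0 := by omega
  rw [hk, h7]; simp

/-- from the line to the circle -/
theorem PCzero_of_step {g : ℝ → ℂ} (hg : Step g) : (fun y => g (crd y)) ∈ PCzero := by
  classical
  obtain ⟨m, t, c, ht, h0, h1, hc⟩ := hg
  -- every point of (0, 1] is a partition point or lies in one of the intervals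
  have hcases : ∀ x ∈ Set.Ioc (0 : ℝ) 1, (∃ i : Fin (m + 1), x = t i) ∨
      ∃ i : Fin m, x ∈ Set.Ioo (t i.castSucc) (t i.succ) := by
    intro x hx
    by_cases hxe : ∃ i : Fin (m + 1), x = t i
    · exact Or.inl hxe
    right
    push Not at hxe
    -- the largest `i` with `t i < x`
    have hne : (Finset.univ.filter fun i : Fin (m + 1) => t i < x).Nonempty :=
      ⟨0, by simp [h0, hx.1]⟩
    set j := (Finset.univ.filter fun i : Fin (m + 1) => t i < x).max' hne with hj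
    have hjm : t j < x := by
      have := Finset.max'_mem _ hne
      rw [← hj] at this
      exact (Finset.mem_filter.mp this).2
    have hjl : j ≠ Fin.last m := by
      intro h
      rw [h, h1] at hjm
      linarith [hx.2]
    obtain ⟨i, hi⟩ : ∃ i : Fin m, i.castSucc = j := ⟨j.castPred hjl, Fin.castSucc_castPred j hjl⟩
    refine ⟨i, by rw [hi]; exact hjm, ?_⟩
    by_contra hcon
    push Not at hcon
    have hlt : t i.succ < x := lt_of_le_of_ne hcon (fun h => hxe i.succ h.symm)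
    have hle : i.succ ≤ j := by
      rw [hj]
      exact Finset.le_max' _ _ (by simp [hlt])
    have : i.castSucc < i.succ := Fin.castSucc_lt_succ
    rw [hi] at this
    exact absurd hle (not_le.mpr this)
  refine ⟨?_, ?_⟩
  · apply ((Set.finite_range (fun i : Fin (m + 1) => g (t i))).union (Set.finite_range c)).subset
    rintro _ ⟨y, rfl⟩
    rcases hcases _ (crd_mem y) with ⟨i, hi⟩ | ⟨i, hi⟩
    · left; exact ⟨i, by simp only [hi]⟩
    · right; exact ⟨i, (hc i _ hi).symm⟩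
  · intro z
    refine ⟨{S | ∃ i : Fin m, c i = z ∧ S = cov '' Set.Ioo (t i.castSucc) (t i.succ)} ∪
      {S | ∃ i : Fin (m + 1), g (crd (cov (t i))) = z ∧ S = cov '' {t i}}, ?_, ?_, ?_⟩
    · apply Set.Finite.union
      · apply (Set.finite_range (fun i : Fin m => cov '' Set.Ioo (t i.castSucc) (t i.succ))).subset
        rintro S ⟨i, -, rfl⟩
        exact ⟨i, rfl⟩
      · apply (Set.finite_range (fun i : Fin (m + 1) => cov '' {t i})).subset
        rintro S ⟨i, -, rfl⟩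
        exact ⟨i, rfl⟩
    · rintro S (⟨i, -, rfl⟩ | ⟨i, -, rfl⟩)
      · exact ⟨_, Set.ordConnected_Ioo, rfl⟩
      · exact ⟨_, Set.ordConnected_singleton, rfl⟩
    · ext y
      simp only [Set.mem_preimage, Set.mem_singleton_iff, Set.mem_sUnion, Set.mem_union,
        Set.mem_ofPred_eq]
      constructor
      · intro hy
        rcases hcases _ (crd_mem y) with ⟨i, hi⟩ | ⟨i, hi⟩
        · refine ⟨cov '' {t i}, Or.inr ⟨i, ?_, rfl⟩, ⟨t i, rfl, ?_⟩⟩
          · rw [← hi, cov_crd]; exact hy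
          · rw [← hi, cov_crd]
        · refine ⟨_, Or.inl ⟨i, ?_, rfl⟩, ⟨crd y, hi, cov_crd y⟩⟩
          rw [← hc i _ hi]; exact hy
      · rintro ⟨S, ⟨i, hi, rfl⟩ | ⟨i, hi, rfl⟩, hy⟩
        · obtain ⟨x, hx, rfl⟩ := hy
          have hx0 : 0 < x := by
            have : t 0 ≤ t i.castSucc := ht.monotone (Fin.zero_le _)
            rw [h0] at this; linarith [hx.1]
          have hx1 : x < 1 := by
            have : t i.succ ≤ t (Fin.last m) := ht.monotone (Fin.le_last _)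
            rw [h1] at this; linarith [hx.2]
          rw [crd_cov ⟨hx0, hx1.le⟩, hc i x hx, hi]
        · obtain ⟨x, hx, rfl⟩ := hy
          rw [Set.mem_singleton_iff] at hx
          rw [hx]; exact hi

theorem vol_eq : (volume : Measure UnitAddCircle) = μT := by
  rw [AddCircle.volume_eq_smul_haarAddCircle]; simp

theorem mp_cov : MeasurePreserving cov (volume.restrict (Set.Ioc (0 : ℝ) 1)) μT := by
  have hmp := AddCircle.measurePreserving_mk (1 : ℝ) 0
  rw [zero_add] at hmp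
  rw [← vol_eq]
  exact hmp

theorem fc_eq {s : UnitAddCircle → ℂ} {g : ℝ → ℂ} (h : ∀ x ∈ Set.Ioc (0 : ℝ) 1, g x = s (cov x))
    (n : ℤ) : ∫ x in (0:ℝ)..1, Complex.exp (-(2 * (Real.pi : ℂ) * Complex.I * (n : ℂ) * (x : ℂ))) * g x
      = fourierCoeff s n := by
  rw [fourierCoeff_eq_intervalIntegral s n 0]
  simp only [zero_add, one_div, inv_one, one_smul]
  apply intervalIntegral.integral_congr_ae
  apply Eventually.of_forall
  intro x hx
  rw [Set.uIoc_of_le zero_le_one] at hx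
  rw [h x hx, smul_eq_mul]
  congr 1
  rw [fourier_coe_apply]
  congr 1
  push_cast
  ring

theorem ae_line {F s : UnitAddCircle → ℂ} {ε : ℝ} (h : ∀ᵐ x ∂μT, ‖F x - s x‖ ≤ ε) :
    ∀ᵐ x ∂(volume.restrict (Set.Icc (0 : ℝ) 1)), ‖F (cov x) - s (cov x)‖ ≤ ε := by
  rw [restrict_Ioc_eq_restrict_Icc.symm]
  exact mp_cov.quasiMeasurePreserving.ae h

theorem ae_circle {P : ℝ → Prop}
    (h : ∀ᵐ x ∂(volume.restrict (Set.Icc (0 : ℝ) 1)), P x) : ∀ᵐ y ∂μT, P (crd y) := by
  rw [restrict_Ioc_eq_restrict_Icc.symm] at h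
  obtain ⟨N, hN1, hN2, hN3⟩ := exists_measurable_superset_of_null (ae_iff.mp h)
  have h4 : μT (crd ⁻¹' N) = 0 := by
    rw [← mp_cov.map_eq, Measure.map_apply mp_cov.measurable (measurable_crd hN2)]
    apply measure_mono_null (t := N ∪ (Set.Ioc (0 : ℝ) 1)ᶜ)
    · intro x hx
      by_cases hx1 : x ∈ Set.Ioc (0 : ℝ) 1
      · left
        have h5 : crd (cov x) ∈ N := hx
        rwa [crd_cov hx1] at h5
      · exact Or.inr hx1
    · rw [measure_union_null_iff]
      refine ⟨hN3, ?_⟩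
      rw [Measure.restrict_apply measurableSet_Ioc.compl]
      simp
  rw [ae_iff]
  apply measure_mono_null _ h4
  intro y hy
  exact hN1 hy

theorem ext_MB {p : ℝ} (hp : 1 < p) {a : ℤ → ℂ} {C : ℝ}
    (h : ∀ F : ℤ →₀ ℂ, ∑' n : ℤ, ENNReal.ofReal ‖∑ k ∈ F.support, a (n - k) * F k‖ ^ p
        ≤ ENNReal.ofReal C ^ p * ∑ k ∈ F.support, ENNReal.ofReal ‖F k‖ ^ p) :
    MB p (max C 0) a := by
  classical
  have hp0 : 0 < p := by linarith
  intro s t F
  have h1 := h (ext0 s F)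
  simp only [ext0_sum s F] at h1
  have h3 : ∑ k ∈ (ext0 s F).support, ENNReal.ofReal ‖ext0 s F k‖ ^ p
      = ∑ l ∈ s, ENNReal.ofReal ‖F l‖ ^ p := by
    rw [Finset.sum_subset (ext0_support s F)]
    · exact Finset.sum_congr rfl fun l hl => by rw [ext0_apply_mem hl]
    · intro l _ hl
      rw [Finsupp.notMem_support_iff] at hl
      rw [hl]
      simp [hp0]
  rw [h3] at h1
  have h4 : ∑ k ∈ t, ENNReal.ofReal ‖∑ l ∈ s, a (k - l) * F l‖ ^ p
      ≤ ENNReal.ofReal C ^ p * ∑ l ∈ s, ENNReal.ofReal ‖F l‖ ^ p :=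
    (ENNReal.sum_le_tsum t).trans h1
  have h6 : ∀ (r : Finset ℤ) (G : ℤ → ℂ), ∑ k ∈ r, ENNReal.ofReal ‖G k‖ ^ p
      = ENNReal.ofReal (∑ k ∈ r, ‖G k‖ ^ p) := by
    intro r G
    rw [ENNReal.ofReal_sum_of_nonneg (fun k _ => Real.rpow_nonneg (norm_nonneg _) _)]
    apply Finset.sum_congr rfl; intro k _
    rw [ENNReal.ofReal_rpow_of_nonneg (norm_nonneg _) hp0.le]
  have h5 : ENNReal.ofReal C = ENNReal.ofReal (max C 0) := by
    rcases le_total C 0 with hC | hC
    · rw [max_eq_right hC, ENNReal.ofReal_of_nonpos hC, ENNReal.ofReal_zero]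
    · rw [max_eq_left hC]
  rw [h6 t (fun k => ∑ l ∈ s, a (k - l) * F l), h6, h5,
    ENNReal.ofReal_rpow_of_nonneg (le_max_right _ _) hp0.le,
    ← ENNReal.ofReal_mul (Real.rpow_nonneg (le_max_right _ _) _)] at h4
  exact (ENNReal.ofReal_le_ofReal_iff (mul_nonneg (Real.rpow_nonneg (le_max_right _ _) _)
    (Finset.sum_nonneg fun _ _ => Real.rpow_nonneg (norm_nonneg _) _))).mp h4

theorem of_MB {p : ℝ} (hp : 1 < p) {a : ℤ → ℂ} {C : ℝ} (hC : 0 ≤ C) (h : MB p C a)
    (F : ℤ →₀ ℂ) : ∑' n : ℤ, ENNReal.ofReal ‖∑ k ∈ F.support, a (n - k) * F k‖ ^ p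
        ≤ ENNReal.ofReal C ^ p * ∑ k ∈ F.support, ENNReal.ofReal ‖F k‖ ^ p := by
  have hp0 : 0 < p := by linarith
  rw [ENNReal.tsum_eq_iSup_sum]
  apply iSup_le
  intro t
  have h6 : ∀ (r : Finset ℤ) (G : ℤ → ℂ), ∑ k ∈ r, ENNReal.ofReal ‖G k‖ ^ p
      = ENNReal.ofReal (∑ k ∈ r, ‖G k‖ ^ p) := by
    intro r G
    rw [ENNReal.ofReal_sum_of_nonneg (fun k _ => Real.rpow_nonneg (norm_nonneg _) _)]
    apply Finset.sum_congr rfl; intro k _
    rw [ENNReal.ofReal_rpow_of_nonneg (norm_nonneg _) hp0.le]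
  rw [h6 t (fun n => ∑ k ∈ F.support, a (n - k) * F k), h6,
    ENNReal.ofReal_rpow_of_nonneg hC hp0.le,
    ← ENNReal.ofReal_mul (Real.rpow_nonneg hC _)]
  exact ENNReal.ofReal_le_ofReal (h F.support t F)

theorem main (cf : (ℝ → ℂ) → ℤ → ℂ)
    (hcf : ∀ (g : ℝ → ℂ) (n : ℤ), cf g n =
      ∫ x in (0:ℝ)..1, Complex.exp (-(2 * (Real.pi : ℂ) * Complex.I * (n : ℂ) * (x : ℂ))) * g x)
    (p : ℝ) (hp : 1 < p) (f : ℝ → ℂ)
    (hf : ∀ ε : ℝ≥0∞, 0 < ε → ∃ g : ℝ → ℂ, Step g ∧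
      eLpNorm (fun x => f x - g x) ⊤ (volume.restrict (Set.Icc (0:ℝ) 1)) < ε)
    (hM : ∃ C : ℝ, ∀ a : ℤ →₀ ℂ,
      ∑' n : ℤ, ENNReal.ofReal ‖∑ k ∈ a.support, cf f (n - k) * a k‖ ^ p
        ≤ ENNReal.ofReal C ^ p * ∑ k ∈ a.support, ENNReal.ofReal ‖a k‖ ^ p) :
    ∃ g : ℕ → ℝ → ℂ, (∀ j, Step (g j)) ∧ (∃ C : ℝ, ∀ j, ∀ a : ℤ →₀ ℂ,
      ∑' n : ℤ, ENNReal.ofReal ‖∑ k ∈ a.support, cf (g j) (n - k) * a k‖ ^ p
        ≤ ENNReal.ofReal C ^ p * ∑ k ∈ a.support, ENNReal.ofReal ‖a k‖ ^ p) ∧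
      Tendsto (fun j => eLpNorm (fun x => g j x - f x) ⊤ (volume.restrict (Set.Icc (0:ℝ) 1)))
        atTop (𝓝 0) := by
  -- the function on the circle
  set F : UnitAddCircle → ℂ := fun y => f (crd y) with hF
  have hFf : ∀ x ∈ Set.Ioc (0 : ℝ) 1, f x = F (cov x) := by
    intro x hx
    rw [hF]; simp only; rw [crd_cov hx]
  -- approximations on the circle
  have happ : ∀ ε : ℝ, 0 < ε → ∃ g ∈ PCzero, ∀ᵐ x ∂μT, ‖F x - g x‖ ≤ ε := by
    intro ε hε
    obtain ⟨g, hg, hfg⟩ := hf (ENNReal.ofReal ε) (ENNReal.ofReal_pos.mpr hε)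
    refine ⟨fun y => g (crd y), PCzero_of_step hg, ?_⟩
    apply ae_circle (P := fun x => ‖f x - g x‖ ≤ ε)
    rw [eLpNorm_exponent_top] at hfg
    filter_upwards [ae_le_eLpNormEssSup (f := fun x => f x - g x)
      (μ := volume.restrict (Set.Icc (0:ℝ) 1))] with x hx
    have h1 := hx.trans hfg.le
    rw [← ofReal_norm] at h1
    exact (ENNReal.ofReal_le_ofReal_iff hε.le).mp h1
  -- measurability
  have hFm : AEStronglyMeasurable F μT := by
    choose g hg hfg using fun n : ℕ => happ (1 / ((n : ℝ) + 1)) (by positivity)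
    refine aestronglyMeasurable_of_tendsto_ae (u := atTop) (f := g)
      (fun n => (measurable_PCzero (hg n)).aestronglyMeasurable) ?_
    filter_upwards [ae_all_iff.mpr hfg] with x hx
    rw [tendsto_iff_norm_sub_tendsto_zero]
    refine squeeze_zero (fun _ => norm_nonneg _) (fun n => ?_) tendsto_one_div_add_atTop_nhds_zero_nat
    rw [norm_sub_rev]
    exact hx n
  have hFi : Integrable F μT := by
    apply integrable_of_PC
    refine ⟨hFm, fun ε hε => ?_⟩
    obtain ⟨g, hg, h⟩ := happ ε hε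
    exact ⟨g, hg, eLpNorm_top_of_ae h⟩
  have hcF : ∀ n, cf f n = fourierCoeff F n := fun n => by rw [hcf, fc_eq hFf]
  obtain ⟨C, hC⟩ := hM
  have hMB : MB p (max C 0) (fourierCoeff F) := by
    apply ext_MB hp
    intro a
    simp only [← hcF]
    exact hC a
  obtain ⟨C', hC', h⟩ := positive hp hFi happ (le_max_right _ _) hMB
  choose s hs hsi hsM hsx using h
  have hpos : ∀ n : ℕ, (0 : ℝ) < 1 / ((n : ℝ) + 1) := fun n => by positivity
  refine ⟨fun n x => s (1 / ((n : ℝ) + 1)) (hpos n) (cov x), fun n => step_of_PCzero (hs _ _),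
    ⟨C', fun n a => ?_⟩, ?_⟩
  · have h1 : ∀ m, cf (fun x => s (1 / ((n : ℝ) + 1)) (hpos n) (cov x)) m
        = fourierCoeff (s (1 / ((n : ℝ) + 1)) (hpos n)) m := fun m => by
      rw [hcf, fc_eq (fun x _ => rfl)]
    simp only [h1]
    exact of_MB hp hC' (hsM _ _) a
  · have h3 : ∀ n : ℕ, eLpNorm (fun x => s (1 / ((n : ℝ) + 1)) (hpos n) (cov x) - f x) ⊤
        (volume.restrict (Set.Icc (0:ℝ) 1)) ≤ ENNReal.ofReal (1 / ((n : ℝ) + 1)) := by
      intro n
      rw [eLpNorm_exponent_top]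
      apply eLpNormEssSup_le_of_ae_bound
      have h4 := ae_line (hsx _ (hpos n))
      have h5 : ∀ᵐ x ∂(volume.restrict (Set.Icc (0 : ℝ) 1)), x ∈ Set.Ioc (0 : ℝ) 1 := by
        rw [restrict_Ioc_eq_restrict_Icc.symm]
        exact ae_restrict_mem measurableSet_Ioc
      filter_upwards [h4, h5] with x hx hx'
      rw [norm_sub_rev, hFf x hx']
      exact hx
    have h4 : Tendsto (fun n : ℕ => ENNReal.ofReal (1 / ((n : ℝ) + 1))) atTop (𝓝 0) := by
      rw [← ENNReal.ofReal_zero]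
      exact ENNReal.tendsto_ofReal tendsto_one_div_add_atTop_nhds_zero_nat
    exact tendsto_of_tendsto_of_tendsto_of_le_of_le tendsto_const_nhds h4
      (fun n => bot_le) h3

end Pool.Agent.W757.PCconv
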