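import Mathlib
import Pool.Agent.W757.RF.Main

/-! Fatou's conjecture near rational maps whose Julia sets are small: a rational map with an
attracting cycle which is a limit of rational maps whose Julia sets (together with the preimages of
Herman rings) have spherical area tending to zero is a limit of hyperbolic rational maps. -/

set_option autoImplicit false

open Topology Filter MeasureTheory Metric

namespace Pool.Agent.W757.SmallJuliaArea

/-- `f` is the rational map `P / Q` on the Riemann sphere. -/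
def IsRationalMap (P Q : Polynomial ℂ) (f : OnePoint ℂ → OnePoint ℂ) : Prop :=
  Continuous f ∧ ∀ z : ℂ, Q.eval z ≠ 0 →
    f (OnePoint.some z) = OnePoint.some (P.eval z / Q.eval z)

/-- `a` is a point of an attracting cycle of `f` whose period divides `n`: `f^n` fixes `a` and the
iterates of `f^n` converge to `a` uniformly on a neighbourhood of `a`. -/
def IsSink (f : OnePoint ℂ → OnePoint ℂ) (n : ℕ) (a : OnePoint ℂ) : Prop :=
  0 < n ∧ f^[n] a = a ∧
    ∃ U ∈ nhds a, ∀ V ∈ nhds a, ∀ᶠ k : ℕ in Filter.atTop, ∀ w ∈ U, f^[n * k] w ∈ V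

/-- `z` is in the basin of an attracting cycle of `f`. -/
def Attracted (f : OnePoint ℂ → OnePoint ℂ) (z : OnePoint ℂ) : Prop :=
  ∃ (n : ℕ) (a : OnePoint ℂ), IsSink f n a ∧
    Filter.Tendsto (fun k : ℕ => f^[n * k] z) Filter.atTop (nhds a)

/-- A local coordinate at the point `a` of the sphere, with `chart a 0 = a`: for `a = ∞` it is
`w ↦ 1 / w`, and for a point `a` of the plane it is `w ↦ a + w`. -/
noncomputable def chart (a : OnePoint ℂ) (w : ℂ) : OnePoint ℂ :=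
  match a with
  | none => open Classical in if w = 0 then OnePoint.infty else OnePoint.some w⁻¹
  | some a => OnePoint.some (a + w)

/-- `f^p` fixes `a`, with multiplier `ρ` (the derivative of `f^p` at `a` in the local
coordinate). -/
def HasMultiplier (f : OnePoint ℂ → OnePoint ℂ) (p : ℕ) (a : OnePoint ℂ) (ρ : ℂ) : Prop :=
  ∃ g : ℂ → ℂ, g 0 = 0 ∧ HasDerivAt g ρ 0 ∧
    ∀ᶠ w in nhds (0 : ℂ), f^[p] (chart a w) = chart a (g w)

/-- `z` is in the basin of a parabolic cycle: for some `p` the points `f^(p k) (z)` converge to a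
fixed point `a` of `f^p` of multiplier `1`, and are different from `a`. -/
def ParabolicBasin (f : OnePoint ℂ → OnePoint ℂ) (z : OnePoint ℂ) : Prop :=
  ∃ (p : ℕ) (a : OnePoint ℂ), 0 < p ∧ HasMultiplier f p a 1 ∧
    Filter.Tendsto (fun k : ℕ => f^[p * k] z) Filter.atTop (nhds a) ∧ ∀ k : ℕ, f^[p * k] z ≠ a

/-- `h` is a holomorphic map from the disc of radius `r` to the sphere. -/
def HolomorphicOnDisc (h : ℂ → OnePoint ℂ) (r : ℝ) : Prop :=
  ∀ w₀ ∈ ball (0 : ℂ) r, ∃ g : ℂ → ℂ, AnalyticAt ℂ g w₀ ∧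
    ∀ᶠ w in nhds w₀, h w = chart (h w₀) (g w)

/-- `z` is mapped by some iterate of `f` into a Siegel disc: an injective holomorphic map `h` of a
disc to the sphere conjugates `f^p` to an irrational rotation. -/
def SiegelBasin (f : OnePoint ℂ → OnePoint ℂ) (z : OnePoint ℂ) : Prop :=
  ∃ (n p : ℕ) (r : ℝ) (ρ : ℂ) (h : ℂ → OnePoint ℂ), 0 < p ∧ 0 < r ∧ ‖ρ‖ = 1 ∧
    (∀ m : ℕ, 0 < m → ρ ^ m ≠ 1) ∧ HolomorphicOnDisc h r ∧ Set.InjOn h (ball 0 r) ∧
    (∀ w ∈ ball (0 : ℂ) r, f^[p] (h w) = h (ρ * w)) ∧ f^[n] z ∈ h '' ball 0 r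

/-- The points of the plane which are not in the basin of an attracting or parabolic cycle and are
not mapped into a Siegel disc. By the classification of the Fatou components this is the part in
the plane of the union of the Julia set and the preimages of the Herman rings. -/
def JuliaHerman (f : OnePoint ℂ → OnePoint ℂ) : Set ℂ :=
  {z : ℂ | ¬ Attracted f (OnePoint.some z) ∧ ¬ ParabolicBasin f (OnePoint.some z) ∧
    ¬ SiegelBasin f (OnePoint.some z)}

/-- Spherical area. -/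
noncomputable def sphericalArea (E : Set ℂ) : ENNReal :=
  ∫⁻ z in E, ENNReal.ofReal (1 / (1 + ‖z‖ ^ 2) ^ 2)

/-- `P / Q` is hyperbolic: word for word the condition of the frozen statement S05373. -/
def Hyperbolic (P Q : Polynomial ℂ) : Prop :=
  ∃ f : OnePoint ℂ → OnePoint ℂ, Continuous f ∧
    (∀ z : ℂ, Q.eval z ≠ 0 →
      f (OnePoint.some z) = OnePoint.some (P.eval z / Q.eval z)) ∧
    ∀ c : OnePoint ℂ, (¬ ∃ U ∈ nhds c, Set.InjOn f U) →
      ∃ z : OnePoint ℂ, ∃ n : ℕ, 0 < n ∧ f^[n] z = z ∧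
        (∃ U ∈ nhds z, ∀ w ∈ U,
          Filter.Tendsto (fun k : ℕ => f^[n * k] w) Filter.atTop (nhds z)) ∧
        Filter.Tendsto (fun k : ℕ => f^[n * k] c) Filter.atTop (nhds z)

open Pool.Agent.H790R3.RB in
/-- Let `f₀ = P₀ / Q₀` be a rational map of degree `d ≥ 2` which has an attracting cycle, and
suppose that `f₀` is a limit of rational maps of degree `d` for which the spherical area of the
Julia set and of the preimages of the Herman rings tends to zero (for instance: for which this area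
is zero, like `f₀` itself if its area is zero). Then `f₀` is a limit of hyperbolic rational maps of
degree `d`. -/
theorem result (d : ℕ) (hd : 2 ≤ d) (P₀ Q₀ : Polynomial ℂ) (hPQ : IsCoprime P₀ Q₀)
    (hdeg : max P₀.natDegree Q₀.natDegree = d) (f₀ : OnePoint ℂ → OnePoint ℂ)
    (hf₀ : IsRationalMap P₀ Q₀ f₀) (hsink : ∃ (n : ℕ) (a : OnePoint ℂ), IsSink f₀ n a)
    (hlim : ∀ δ : ℝ, 0 < δ → ∃ (P Q : Polynomial ℂ) (f : OnePoint ℂ → OnePoint ℂ),
      IsCoprime P Q ∧ max P.natDegree Q.natDegree = d ∧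
      (∀ i : ℕ, ‖P.coeff i - P₀.coeff i‖ < δ ∧ ‖Q.coeff i - Q₀.coeff i‖ < δ) ∧
      IsRationalMap P Q f ∧ sphericalArea (JuliaHerman f) < ENNReal.ofReal δ) :
    ∀ ε : ℝ, 0 < ε → ∃ P' Q' : Polynomial ℂ, IsCoprime P' Q' ∧
      max P'.natDegree Q'.natDegree = d ∧
      (∀ i : ℕ, ‖P'.coeff i - P₀.coeff i‖ < ε ∧ ‖Q'.coeff i - Q₀.coeff i‖ < ε) ∧
      Hyperbolic P' Q' := by
  intro ε hε
  have hd1 : 1 ≤ d := by omega
  obtain ⟨h1, h2⟩ := PQ SP d hd1
  obtain ⟨x₀, hnd, hx0, hx1, hfe⟩ := h2 P₀ Q₀ hPQ hdeg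
  have hfx : f₀ = sp x₀ := hfe f₀ hf₀.1 hf₀.2
  obtain ⟨n, a, hS⟩ := hsink
  have hS' : Sink (sp x₀) n a := by rw [← hfx]; exact hS
  obtain ⟨-, -, hco0, hhi0, -⟩ := h1 x₀ hnd
  have H : ∀ δ : ℝ, 0 < δ → ∃ x : CV d, ‖x - x₀‖ < δ ∧ ND x ∧
      Pool.Agent.W757.RF.sarea (Pool.Agent.W757.RF.JS (sp x)) < ENNReal.ofReal δ := by
    intro δ hδ
    obtain ⟨P, Q, f, hc, hm, hclose, hf, har⟩ := hlim δ hδ
    obtain ⟨x, hxn, hxP, hxQ, hfe'⟩ := h2 P Q hc hm
    have hfx' : f = sp x := hfe' f hf.1 hf.2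
    obtain ⟨-, -, hco, -, -⟩ := h1 x hxn
    refine ⟨x, ?_, hxn, ?_⟩
    · rw [pi_norm_lt_iff hδ]
      rintro ⟨i, j⟩
      have e1 := hco i j
      have e2 := hco0 i j
      rw [Pi.sub_apply, ← e1, ← e2]
      fin_cases i
      · show ‖(pol x 0).coeff (j : ℕ) - (pol x₀ 0).coeff (j : ℕ)‖ < δ
        rw [hxP, hx0]; exact (hclose j).1
      · show ‖(pol x 1).coeff (j : ℕ) - (pol x₀ 1).coeff (j : ℕ)‖ < δ
        rw [hxQ, hx1]; exact (hclose j).2
    · rw [← hfx']; exact har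
  obtain ⟨x, hx, hxnd, hhyp⟩ := Pool.Agent.W757.RF.main d x₀ hd hnd n a hS' H ε hε
  obtain ⟨hcop, hmax, hco, hhi, hev⟩ := h1 x hxnd
  have hcoef : ∀ i : Fin 2, ∀ j : ℕ, ‖(pol x i).coeff j - (pol x₀ i).coeff j‖ < ε := by
    intro i j
    by_cases hj : d < j
    · rw [hhi i j hj, hhi0 i j hj, sub_zero, norm_zero]; exact hε
    · have e1 := hco i ⟨j, by omega⟩
      have e2 := hco0 i ⟨j, by omega⟩
      simp only at e1 e2
      rw [e1, e2]
      exact (norm_le_pi_norm (x - x₀) (i, ⟨j, by omega⟩)).trans_lt hx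
  refine ⟨pol x 0, pol x 1, hcop, hmax, fun i => ⟨?_, ?_⟩, sp x, (SP d x hd1 hxnd).1, hev, hhyp⟩
  · rw [← hx0]; exact hcoef 0 i
  · rw [← hx1]; exact hcoef 1 i

end Pool.Agent.W757.SmallJuliaArea
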